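import Pool.Agent.W2helper62.DS.DS10
import Pool.Agent.W2helper30.AN.Ex
import Pool.Agent.Y877.SxI

/-!
# Primes `p_{k n}` with `p_{k n} + D` prime, for several `n` at once, and for the shifts `D` in very sparse families

The shifts are `h · P(y) · (c + κ ⌊U f(x₀ + 1 / i)⌋)`, `M < i ≤ 2 M`, where `P(y)` is the product of the primes `≤ y`,
`y ≍ log log T`, and `f` is an arbitrary real analytic function; the number `M` of the shifts can be as small as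
`exp ((log T) ^ (2 / 3 + ε'))`, and their size is `T` up to powers of `log T`.

Method: Vinogradov's mean value method and the inequality of Kusmin and Landau for the sums of `e(t f(x₀ + 1 / i))` and a
discrete Fejer kernel (`Pool.Agent.W2helper30.AN`, helper30); from such laws to primes as in the starting files
`Pool.Agent.N625.PT`, made independent of the digits in `Pool.Agent.W2helper62.DS`.
-/

set_option autoImplicit false

open Finset

namespace Pool.Agent.W2helper62.Unused.IndexShiftsBe93de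

/-- the `k`-th prime, `p 1 = 2` -/
noncomputable def p (k : ℕ) : ℕ := Nat.nth Nat.Prime (k - 1)

/-- the product of `1 - 1/q` over the primes `q ≤ y` -/
noncomputable def V (y : ℕ) : ℝ := ∏ q ∈ (Icc 1 y).filter Nat.Prime, (1 - 1 / (q : ℝ))

/-- A function `f`, real analytic at `x₀` and not constant near `x₀`: `K ≥ 1` is the order of the zero of `f - f x₀` at
`x₀`; and a factor `κ ≠ 0`. -/
structure Curve where
  f : ℝ → ℝ
  x₀ : ℝ
  K : ℕ
  κ : ℤ
  analytic : AnalyticAt ℝ f x₀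
  one_le : 1 ≤ K
  lower : ∀ j : ℕ, 1 ≤ j → j < K → iteratedDeriv j f x₀ = 0
  order : iteratedDeriv K f x₀ ≠ 0
  ne_zero : κ ≠ 0

/-- the parameters of a family of shifts -/
structure Par where
  M : ℕ
  U : ℝ
  c : ℤ
  h : ℕ

/-- The conditions on the parameters: `M ^ (K + δ₀) ≤ U ≤ exp ((log M) ^ (3 / 2 - ε₀))`; the quantity `R = U / M ^ K` (the
order of the length of the interval with the integers `κ ⌊U f(x₀ + 1 / i)⌋`, `M < i ≤ 2 M`) is between `T / log ^ C T` and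
`T log ^ C T`; `|c + κ U f(x₀)| ≤ R log ^ C U`; and `1 ≤ h ≤ log ^ C T`. -/
def Par.Ok (P : Par) (F : Curve) (δ₀ ε₀ : ℝ) (C T : ℕ) : Prop :=
  ((P.M : ℝ) ^ ((F.K : ℝ) + δ₀) ≤ P.U ∧ P.U ≤ Real.exp ((Real.log P.M) ^ (3 / 2 - ε₀))) ∧
  (P.U / (P.M : ℝ) ^ F.K ≤ T * Real.log T ^ C ∧ (T : ℝ) ≤ P.U / (P.M : ℝ) ^ F.K * Real.log T ^ C) ∧
  |(P.c : ℝ) + F.κ * (P.U * F.f F.x₀)| ≤ P.U / (P.M : ℝ) ^ F.K * Real.log P.U ^ C ∧
  (1 ≤ P.h ∧ (P.h : ℝ) ≤ Real.log T ^ C)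

/-- the shifts: the `i`-th shift of the family is `h · P(y) · (c + κ ⌊U f(x₀ + 1 / i)⌋)`, with `P(y)` the product of the
primes `≤ y` -/
noncomputable def shift (F : Curve) (P : Par) (y i : ℕ) : ℤ :=
  P.h * (primorial y : ℕ) * (P.c + F.κ * ⌊P.U * F.f (F.x₀ + 1 / i)⌋)

open Classical in
/-- the `k ∈ S` such that `p_{k n_j} + D_j` is a prime number for the first `t` indices `j` -/
noncomputable def Good {r : ℕ} (n : Fin r → ℕ) (S : Finset ℕ) (D : Fin r → ℤ) (t : ℕ) : Finset ℕ :=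
  S.filter (fun k => ∀ j : Fin r, (j : ℕ) < t → ((p (k * n j) : ℤ) + D j).toNat.Prime)

/-- The asymptotic formulas for the set `S` and the shifts `D_1, …, D_r`: unless some `p_{k n_j} + D_j`, `k ∈ S`, is not
positive, for every `t ≤ r` and for `(1 ± ε) #S / (V y log T) ^ t` of the `k ∈ S` the numbers `p_{k n_j} + D_j`, `j ≤ t`, are
all prime. -/
def Holds {r : ℕ} (T : ℕ) (n : Fin r → ℕ) (S : Finset ℕ) (y : ℕ) (ε : ℝ) (D : Fin r → ℤ) : Prop :=
  (∀ j, ∀ k ∈ S, 0 < (p (k * n j) : ℤ) + D j) → ∀ t : ℕ, t ≤ r →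
    |((Good n S D t).card : ℝ) - S.card / (V y * Real.log T) ^ t| ≤ ε * (S.card / (V y * Real.log T) ^ t)

theorem nth_inj : Function.Injective (Nat.nth Nat.Prime) := Nat.nth_injective Nat.infinite_setOfPred_prime

theorem p_inj (T n : ℕ) (hn : 1 ≤ n) : Set.InjOn (fun k => p (k * n)) (Icc 1 T : Finset ℕ) := by
  intro a ha b hb hab
  rw [mem_coe, mem_Icc] at ha hb
  have h1 := nth_inj hab
  have h2 : 1 ≤ a * n := Nat.mul_pos ha.1 hn
  have h3 : 1 ≤ b * n := Nat.mul_pos hb.1 hn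
  exact Nat.eq_of_mul_eq_mul_right hn (by omega)

theorem V_eq (y : ℕ) : V y = Pool.Agent.H373R2.T7.Vz y := rfl

/-- the primes `p_{k n}` are not too large -/
theorem p_le (A : ℕ) : ∃ T₀ : ℕ, ∀ T : ℕ, T₀ ≤ T → 1 ≤ Real.log T ∧ ∀ n : ℕ, 1 ≤ n → (n : ℝ) ≤ Real.log T ^ A →
    ∀ k ∈ Icc 1 T, (p (k * n) : ℝ) ≤ T * Real.log T ^ (A + 3) := by
  obtain ⟨n1, h1⟩ := Pool.Agent.Y877.SX.nth_le_log
  obtain ⟨n2, h2⟩ := Pool.Agent.H373R2.T7.ev_L' 4
  obtain ⟨n3, h3⟩ := Pool.Agent.H373R2.T7.ev_log' A 1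
  refine ⟨max (max n1 n2) (max n3 1), fun T hT => ?_⟩
  have hL := h2 T (by omega)
  have hs := h3 T (by omega)
  obtain ⟨L, hLd⟩ : ∃ L, L = Real.log T := ⟨_, rfl⟩
  rw [← hLd] at hL hs ⊢
  rw [one_mul] at hs
  refine ⟨by linarith, fun n hn hnL k hk => ?_⟩
  rw [mem_Icc] at hk
  have hTr : (1 : ℝ) ≤ T := by exact_mod_cast (by omega : 1 ≤ T)
  have hT0 : (0 : ℝ) < T := by linarith
  have hsn : √(T : ℝ) ≤ T := by
    have h := Real.sq_sqrt hT0.le
    have h1 : 1 ≤ √(T : ℝ) := by rw [← Real.sqrt_one]; exact Real.sqrt_le_sqrt hTr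
    nlinarith
  have hnT : (n : ℝ) ≤ T := hnL.trans (hs.trans hsn)
  have hTn : T ≤ T * n := Nat.le_mul_of_pos_right _ hn
  have hkn : k * n ≤ T * n := Nat.mul_le_mul_right _ hk.2
  have g1 := h1 (T * n) (by omega) (k * n - 1) (by omega)
  have hlog0 : 0 ≤ Real.log ((T * n : ℕ) : ℝ) := Real.log_natCast_nonneg _
  have hlog : Real.log ((T * n : ℕ) : ℝ) ≤ 2 * L := by
    have hn0 : (0 : ℝ) < n := by exact_mod_cast hn
    have h5 : ((T * n : ℕ) : ℝ) ≤ (T : ℝ) ^ 2 := by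
      push_cast
      nlinarith
    have h6 := Real.log_le_log (by push_cast; exact mul_pos hT0 hn0) h5
    rw [Real.log_pow, ← hLd] at h6
    push_cast at h6 ⊢
    exact h6
  have h7 : Real.log ((T * n : ℕ) : ℝ) ^ 2 ≤ (2 * L) ^ 2 := pow_le_pow_left₀ hlog0 hlog 2
  calc (p (k * n) : ℝ) ≤ ((T * n : ℕ) : ℝ) * Real.log ((T * n : ℕ) : ℝ) ^ 2 := g1
    _ ≤ (T * L ^ A) * (2 * L) ^ 2 := by
        apply mul_le_mul _ h7 (by positivity) (by positivity)
        push_cast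
        exact mul_le_mul_of_nonneg_left hnL hT0.le
    _ = T * (L ^ A * (4 * L ^ 2)) := by ring
    _ ≤ T * L ^ (A + 3) := by
        apply mul_le_mul_of_nonneg_left _ hT0.le
        rw [pow_add]
        apply mul_le_mul_of_nonneg_left _ (by positivity)
        have : 0 ≤ L ^ 2 := by positivity
        nlinarith

open Classical in
/-- **(1)** Let `F_1, …, F_r` be functions with factors as above, and `δ₀ > 0`, `0 < ε₀ < 1 / 2`, `A`, `B`, `C`, `θ > 0`,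
`0 < ε ≤ 1`. For every large `T`, every `y` between `θ log log T` and `B log log T`, all parameters `P_j` for `F_j` which
satisfy the conditions `Par.Ok`, ALL `n_1, …, n_r ≤ log ^ A T` (equal or not), and EVERY set `S` of at least `T / log ^ A T`
integers `1 ≤ k ≤ T`: for all but a proportion `ε` of the vectors `(i_1, …, i_r)`, `P_j.M < i_j ≤ 2 P_j.M`, the shifts
`D_j = shift F_j P_j y i_j` have the following property. If `p_{k n_j} + D_j > 0` for all `j` and all `k ∈ S` (in particular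
if `D_j ≥ 0`), then for every `t ≤ r` the number of the `k ∈ S` such that `p_{k n_j} + D_j` is prime for all `j ≤ t` is
`(1 ± ε) #S / (V y log T) ^ t`. So one `k` serves the numbers `n_1, …, n_r` at the same time.

**(2)** Every function which is real analytic at `x₀` and not constant near `x₀` can be used, with a suitable `K`, and with
`K = 1` if its derivative at `x₀` is not zero; for example, `f x = x`, `x₀ = 0`: the shifts `h P(y) (c + κ ⌊U / i⌋)`. -/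
theorem result :
    (∀ (r : ℕ) (F : Fin r → Curve) (δ₀ ε₀ : ℝ), 0 < δ₀ → 0 < ε₀ → ε₀ < 1 / 2 → ∀ (A B C : ℕ) (θ ε : ℝ), 0 < θ → 0 < ε →
      ε ≤ 1 → ∃ T₀ : ℕ, ∀ T : ℕ, T₀ ≤ T → ∀ y : ℕ, θ * Real.log (Real.log T) ≤ y → y ≤ B * Real.log (Real.log T) →
      ∀ P : Fin r → Par, (∀ j, (P j).Ok (F j) δ₀ ε₀ C T) →
      ∀ n : Fin r → ℕ, (∀ j, 1 ≤ n j ∧ (n j : ℝ) ≤ Real.log T ^ A) →
      ∀ S : Finset ℕ, S ⊆ Icc 1 T → (T : ℝ) ≤ S.card * Real.log T ^ A →
        (((Fintype.piFinset (fun j : Fin r => Ioc (P j).M (2 * (P j).M))).filter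
          (fun i => ¬ Holds T n S y ε (fun j => shift (F j) (P j) y (i j)))).card : ℝ) ≤ ε * ∏ j, ((P j).M : ℝ)) ∧
    (∀ (f : ℝ → ℝ) (x₀ : ℝ), AnalyticAt ℝ f x₀ → (¬ ∀ᶠ x in nhds x₀, f x = f x₀) → ∀ κ : ℤ, κ ≠ 0 →
      ∃ F : Curve, F.f = f ∧ F.x₀ = x₀ ∧ F.κ = κ) ∧
    (∀ (f : ℝ → ℝ) (x₀ : ℝ), AnalyticAt ℝ f x₀ → deriv f x₀ ≠ 0 → ∀ κ : ℤ, κ ≠ 0 →
      ∃ F : Curve, F.f = f ∧ F.x₀ = x₀ ∧ F.κ = κ ∧ F.K = 1) ∧
    (∀ κ : ℤ, κ ≠ 0 → ∃ F : Curve, F.f = (fun x => x) ∧ F.x₀ = 0 ∧ F.κ = κ ∧ F.K = 1) := by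
  have hone : ∀ (f : ℝ → ℝ) (x₀ : ℝ), AnalyticAt ℝ f x₀ → deriv f x₀ ≠ 0 → ∀ κ : ℤ, κ ≠ 0 →
      ∃ F : Curve, F.f = f ∧ F.x₀ = x₀ ∧ F.κ = κ ∧ F.K = 1 := by
    intro f x₀ h1 h2 κ hκ
    have h3 := Pool.Agent.W2helper30.AN.ord_one h1 h2
    exact ⟨⟨f, x₀, 1, κ, h3.1, h3.2.1, h3.2.2.1, h3.2.2.2, hκ⟩, rfl, rfl, rfl, rfl⟩
  refine ⟨?_, ?_, hone, fun κ hκ => hone _ _ (by fun_prop) (by simp) κ hκ⟩
  · intro r F δ₀ ε₀ hδ₀ hε₀ hε₀2 A B C θ ε hθ hε hε1
    obtain ⟨n1, hn1⟩ := Pool.Agent.W2helper62.DS.ac_fin r (fun j => (F j).f) (fun j => (F j).x₀) (fun j => (F j).K)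
      (fun j => ⟨(F j).analytic, (F j).one_le, (F j).lower, (F j).order⟩)
      δ₀ ε₀ hδ₀ hε₀ hε₀2 (fun j => (F j).κ) (fun j => (F j).ne_zero) C C A C (A + 3) B θ hθ ε hε hε1
    obtain ⟨n2, hn2⟩ := p_le A
    refine ⟨max n1 n2, fun T hT y hy1 hy2 P hP n hn S hS hSA => ?_⟩
    obtain ⟨hL1, hp⟩ := hn2 T (by omega)
    have h1 := hn1 T (by omega) (fun j => (P j).M) (fun j => (P j).U) (fun j => ⟨(hP j).1.1, (hP j).1.2⟩) (fun j => (hP j).2.1)
      y hy1 hy2 (fun j => (P j).c) (fun j => (hP j).2.2.1) (fun j => (P j).h) (fun j => (hP j).2.2.2) S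
      (fun j k => p (k * n j)) (fun j => (p_inj T (n j) (hn j).1).mono (by exact_mod_cast hS))
      (fun j k hk => ⟨Nat.prime_nth_prime _, hp (n j) (hn j).1 (hn j).2 k (hS hk)⟩) hSA (fun _ => 1) (fun _ => Or.inl rfl)
    refine le_trans ?_ h1
    norm_cast
    apply card_le_card
    intro i hi
    rw [mem_filter] at hi ⊢
    refine ⟨hi.1, fun hg => hi.2 ?_⟩
    intro hpos t ht
    have e1 : ∀ (j : Fin r) (k : ℕ), ((primorial y * (P j).h : ℕ) : ℤ) *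
        ((P j).c + (F j).κ * Pool.Agent.W2helper30.AN.vl (F j).f (F j).x₀ (P j).U (i j)) + 1 * (p (k * n j) : ℤ) =
        (p (k * n j) : ℤ) + shift (F j) (P j) y (i j) := by
      intro j k
      unfold shift Pool.Agent.W2helper30.AN.vl
      push_cast
      ring
    have hg' := hg (fun j k hk => by
      have := hpos j k hk
      rw [← e1 j k] at this
      exact this) t ht
    rw [V_eq]
    convert hg' using 5
    unfold Good
    apply filter_congr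
    intro k _
    apply forall_congr'
    intro j
    rw [← e1 j k]
    exact Iff.rfl
  · intro f x₀ h1 h2 κ hκ
    obtain ⟨K, h3⟩ := Pool.Agent.W2helper30.AN.ord_exists h1 h2
    exact ⟨⟨f, x₀, K, κ, h3.1, h3.2.1, h3.2.2.1, h3.2.2.2, hκ⟩, rfl, rfl, rfl⟩

end Pool.Agent.W2helper62.Unused.IndexShiftsBe93de
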