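import Pool.Agent.N798.S2.All
import Pool.Agent.N798.S.Fi

/-!
# Prime values of `⌊α ((k+1)³ - k³)⌋ + b` for almost all real `α`, and of almost all real quadratic polynomials

Q1: is `(k+1)³ - k³` prime for infinitely many `k`?  We show that for almost every `α > 0` and all integers `b` the
number of the `k ≤ N` for which `⌊α ((k+1)³ - k³)⌋ + b` is prime is asymptotic to `N / (2 log N)`, and differs from the
sum of `1 / log (α ((k+1)³ - k³))` by `o(N / (log N)^K)` for every `K`; more generally for almost every
`(α_1, …, α_r) ∈ (0, ∞)^r` and all integers `b_i` all the `r` numbers `⌊α_i ((k+1)³ - k³)⌋ + b_i` are primes for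
`~ N / (2 log N)^r` of the `k ≤ N`, and for `~ N / ((2 log N)^r log N)` of the primes `k ≤ N`.

The same holds for the values of any `r` real polynomials of positive degrees with almost all multipliers, and for almost
all real polynomials of given degrees (Lebesgue measure on the vectors of all coefficients); so the real quadratic
polynomials `f` for which the number of the primes `⌊f(k)⌋`, `k ≤ N`, is not asymptotic to `N / (2 log N)` form a set of
measure zero. The question is whether `3 x² + 3 x + 1` belongs to it.

The proofs are in the starting files (project S of helper798, until now without a hand-in except for a consequence on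
sums of four squares): the second moment over the multipliers by Plancherel's theorem, Fourier transforms of the primes
in logarithmic coordinates (Vinogradov-Korobov), and exponential sums over the logarithms of polynomials at integers and at
primes.
-/

set_option autoImplicit false

namespace Pool.Agent.Results.MP_22d6bb_nt.MetricCubes

open Finset MeasureTheory Filter Topology Polynomial

/-- the number of the `1 ≤ k ≤ N` (of the primes `k ≤ N` if `pr` is true) for which all the `⌊f_i(k)⌋ + b_i` are
primes -/
noncomputable def count {r : ℕ} (pr : Bool) (f : Fin r → ℝ → ℝ) (b : Fin r → ℤ) (N : ℕ) : ℕ :=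
  #((Icc 1 N).filter fun k : ℕ => (pr = true → k.Prime) ∧ ∀ i, (⌊f i (k : ℝ)⌋ + b i).toNat.Prime)

/-- the expected number: the sum of the products of the `1 / log f_i(k)` (and of `1 / log k` if `pr` is true) -/
noncomputable def expected {r : ℕ} (pr : Bool) (f : Fin r → ℝ → ℝ) (N : ℕ) : ℝ :=
  ∑ k ∈ Icc 1 N, (if pr = true then 1 / Real.log k else 1) * ∏ i, 1 / Real.log (f i (k : ℝ))

/-- the count is asymptotic to `N / ((log N)^s ∏ d_i)`, `s = r` or `r + 1` (if `pr` is true), and differs from the
expected number by `o(N / (log N)^K)` for every `K` -/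
def Asymptotics {r : ℕ} (pr : Bool) (f : Fin r → ℝ → ℝ) (b : Fin r → ℤ) (d : Fin r → ℕ) : Prop :=
  Tendsto (fun N : ℕ => (count pr f b N : ℝ) * (Real.log N) ^ (r + pr.toNat) / N) atTop (𝓝 (∏ i, 1 / (d i : ℝ))) ∧
  ∀ K : ℕ, Tendsto (fun N : ℕ => (Real.log N) ^ K / N * |(count pr f b N : ℝ) - expected pr f N|) atTop (𝓝 0)

/-- the value at `x` of the polynomial with the coefficients `a_0, …, a_D` -/
noncomputable def val {D : ℕ} (a : Fin (D + 1) → ℝ) (x : ℝ) : ℝ := ∑ j, a j * x ^ (j : ℕ)

lemma poly {r : ℕ} (P : Fin r → ℝ[X]) (hD : ∀ i, 0 < (P i).natDegree) (hP : ∀ i, 0 < (P i).leadingCoeff) :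
    ∀ᵐ α : Fin r → ℝ, (∀ i, 0 < α i) → ∀ b : Fin r → ℤ, ∀ pr : Bool,
      Asymptotics pr (fun i x => α i * (P i).eval x) b fun i => (P i).natDegree := by
  filter_upwards [Pool.Agent.N798.S.main_poly P hP hD,
    Pool.Agent.N798.S2.main_poly Pool.Agent.N798.S2.phpP Pool.Agent.N798.S2.pnP P hP hD] with α h1 h2 hpos b pr
  cases pr with
  | false =>
    obtain ⟨g1, g2⟩ := h1 hpos b
    have e1 : ∀ N, count false (fun i x => α i * (P i).eval x) b N = Pool.Agent.N798.S.cnt P b α N := by
      intro N
      unfold count Pool.Agent.N798.S.cnt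
      simp
    have e2 : ∀ N, expected false (fun i x => α i * (P i).eval x) N = Pool.Agent.N798.S.mt P α N := by
      intro N
      unfold expected Pool.Agent.N798.S.mt
      simp
    refine ⟨?_, fun K => ?_⟩
    · simp only [e1]
      exact g1
    · simp only [e1, e2]
      exact g2 K
  | true =>
    obtain ⟨g1, g2⟩ := h2 hpos b
    have e1 : ∀ N, count true (fun i x => α i * (P i).eval x) b N = Pool.Agent.N798.S2.cnt P b α N := by
      intro N
      unfold count Pool.Agent.N798.S2.cnt
      simp
    have e2 : ∀ N, expected true (fun i x => α i * (P i).eval x) N = Pool.Agent.N798.S2.mt P α N := by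
      intro N
      unfold expected Pool.Agent.N798.S2.mt
      simp
    refine ⟨?_, fun K => ?_⟩
    · simp only [e1]
      have e3 : r + true.toNat = 1 + r := by simp [add_comm]
      rw [e3]
      exact g1
    · simp only [e1, e2]
      exact g2 K

lemma coeffs {r : ℕ} (d : Fin r → ℕ) (hd : ∀ i, 0 < d i) :
    ∀ᵐ a : (i : Fin r) → Fin (d i + 1) → ℝ, (∀ i, 0 < a i (Fin.last (d i))) → ∀ b : Fin r → ℤ, ∀ pr : Bool,
      Asymptotics pr (fun i x => val (a i) x) b d := by
  filter_upwards [Pool.Agent.N798.S.main_all d hd,
    Pool.Agent.N798.S2.main_all Pool.Agent.N798.S2.phpP Pool.Agent.N798.S2.pnP d hd] with a h1 h2 hpos b pr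
  cases pr with
  | false =>
    obtain ⟨g1, g2⟩ := h1 hpos b
    have e1 : ∀ N, count false (fun i x => val (a i) x) b N = Pool.Agent.N798.S.rcnt d a b N := by
      intro N
      unfold count Pool.Agent.N798.S.rcnt val Pool.Agent.N798.S.pl
      simp
    have e2 : ∀ N, expected false (fun i x => val (a i) x) N = Pool.Agent.N798.S.rmt d a N := by
      intro N
      unfold expected Pool.Agent.N798.S.rmt val Pool.Agent.N798.S.pl
      simp
    refine ⟨?_, fun K => ?_⟩
    · simp only [e1]
      exact g1
    · simp only [e1, e2]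
      exact g2 K
  | true =>
    obtain ⟨g1, g2⟩ := h2 hpos b
    have e1 : ∀ N, count true (fun i x => val (a i) x) b N = Pool.Agent.N798.S2.rcnt d a b N := by
      intro N
      unfold count Pool.Agent.N798.S2.rcnt val Pool.Agent.N798.S.pl
      simp
    have e2 : ∀ N, expected true (fun i x => val (a i) x) N = Pool.Agent.N798.S2.rmt d a N := by
      intro N
      unfold expected Pool.Agent.N798.S2.rmt val Pool.Agent.N798.S.pl
      simp
    refine ⟨?_, fun K => ?_⟩
    · simp only [e1]
      have e3 : r + true.toNat = 1 + r := by simp [add_comm]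
      rw [e3]
      exact g1
    · simp only [e1, e2]
      exact g2 K

/-- the polynomial `(x+1)³ - x³` -/
noncomputable def cub : ℝ[X] := C 3 * X ^ 2 + C 3 * X + C 1

lemma cub_eval (x : ℝ) : cub.eval x = (x + 1) ^ 3 - x ^ 3 := by
  unfold cub
  simp only [eval_add, eval_mul, eval_C, eval_pow, eval_X]
  ring

lemma cub_deg : cub.natDegree = 2 := by
  unfold cub
  exact natDegree_quadratic (by norm_num)

lemma cub_lead : cub.leadingCoeff = 3 := by
  unfold cub
  exact leadingCoeff_quadratic (by norm_num)

/-- **Metric form of the question on the primes `(k+1)³ - k³`.**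
(1) For almost every `α ∈ (0, ∞)^r` and all integers `b_i`: the number of the `k ≤ N` for which all the
`⌊α_i ((k+1)³ - k³)⌋ + b_i` are primes is `~ N / (2 log N)^r`, with an error of `o(N / (log N)^K)`, for every `K`, for the
more precise main term; the same for prime `k`. (2) The same for arbitrary real polynomials and almost all multipliers,
and for almost all vectors of real coefficients. -/
theorem result :
    (∀ r : ℕ, ∀ᵐ α : Fin r → ℝ, (∀ i, 0 < α i) → ∀ b : Fin r → ℤ, ∀ pr : Bool,
      Asymptotics pr (fun i x => α i * ((x + 1) ^ 3 - x ^ 3)) b fun _ => 2) ∧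
    (∀ (r : ℕ) (P : Fin r → ℝ[X]), (∀ i, 0 < (P i).natDegree) → (∀ i, 0 < (P i).leadingCoeff) →
      ∀ᵐ α : Fin r → ℝ, (∀ i, 0 < α i) → ∀ b : Fin r → ℤ, ∀ pr : Bool,
        Asymptotics pr (fun i x => α i * (P i).eval x) b fun i => (P i).natDegree) ∧
    (∀ (r : ℕ) (d : Fin r → ℕ), (∀ i, 0 < d i) →
      ∀ᵐ a : (i : Fin r) → Fin (d i + 1) → ℝ, (∀ i, 0 < a i (Fin.last (d i))) → ∀ b : Fin r → ℤ, ∀ pr : Bool,
        Asymptotics pr (fun i x => val (a i) x) b d) := by
  refine ⟨fun r => ?_, fun r P hD hP => poly P hD hP, fun r d hd => coeffs d hd⟩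
  have h := poly (r := r) (fun _ => cub) (fun _ => by rw [cub_deg]; norm_num) (fun _ => by rw [cub_lead]; norm_num)
  filter_upwards [h] with α hα hpos b pr
  have h1 := hα hpos b pr
  simp only [cub_eval, cub_deg] at h1
  exact h1

end Pool.Agent.Results.MP_22d6bb_nt.MetricCubes
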